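import Mathlib

set_option autoImplicit false

open MeasureTheory Filter Topology Set
open scoped ENNReal

namespace Pool.Agent.Results.MP_e40715_an.Proof

noncomputable abbrev mu : Measure ℝ := volume.restrict (Set.Icc 0 1)

noncomputable abbrev L (p : ℝ≥0∞) := Lp ℂ p mu

section
variable {Y : Type} [NormedAddCommGroup Y] [NormedSpace ℂ Y]

def Op (Y : Type) [NormedAddCommGroup Y] [NormedSpace ℂ Y] : Type := Y →L[ℂ] Y

def act (T : Op Y) : Y → Y := fun y => (show Y →L[ℂ] Y from T) y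

def Hypercyclic (T : Op Y) : Prop := ∃ f : Y, DenseRange fun n : ℕ => (act T)^[n] f

end

def IsWT (p : ℝ≥0∞) (φ : ℝ → ℂ) (α : ℝ) (T : L p → L p) : Prop :=
  ∀ g : L p, T g =ᵐ[mu] fun x => φ x * g (Int.fract (x + α))

section
variable {X : Type} [MeasurableSpace X] {μ : Measure X} [IsProbabilityMeasure μ]

theorem tight {h : X → ℂ} (hh : AEStronglyMeasurable h μ) {ε : ℝ≥0∞} (hε : 0 < ε) :
    ∃ M : ℝ, 0 < M ∧ μ {x | M ≤ ‖h x‖} < ε := by
  have t := tendsto_measure_iInter_atTop (μ := μ) (s := fun n : ℕ => {x | (n : ℝ) + 1 ≤ ‖h x‖})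
    (fun n => nullMeasurableSet_le aemeasurable_const hh.norm.aemeasurable)
    (fun a b hab x hx => by
      have : (a : ℝ) ≤ b := by exact_mod_cast hab
      simp only [mem_setOf_eq] at hx ⊢
      linarith) ⟨0, measure_ne_top _ _⟩
  have e : (⋂ n : ℕ, {x | (n : ℝ) + 1 ≤ ‖h x‖}) = ∅ := by
    refine eq_empty_of_forall_notMem fun x hx => ?_
    obtain ⟨n, hn⟩ := exists_nat_gt ‖h x‖
    have := mem_iInter.1 hx n
    simp only [mem_setOf_eq] at this
    linarith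
  rw [e, measure_empty] at t
  obtain ⟨n, hn⟩ := (t.eventually (gt_mem_nhds hε)).exists
  exact ⟨n + 1, by positivity, hn⟩

theorem null_of_le {S : Set X} (h : ∀ ε : ℝ≥0∞, 0 < ε → μ S ≤ ε + ε + ε) : μ S = 0 := by
  by_contra h0
  have k := h (μ S / 4) (ENNReal.div_pos h0 (by norm_num))
  have ht : μ S ≠ ⊤ := measure_ne_top _ _
  lift μ S to NNReal using ht with a
  have h1 : (0 : ℝ) < a := by
    have : a ≠ 0 := by simpa using h0
    positivity
  have e : ((a : ℝ≥0∞) / 4) = ((a / 4 : NNReal) : ℝ≥0∞) := by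
    rw [ENNReal.coe_div (by norm_num)]; norm_num
  rw [e] at k
  have k2 : a ≤ a / 4 + a / 4 + a / 4 := by exact_mod_cast k
  have k3 : (a : ℝ) ≤ a / 4 + a / 4 + a / 4 := by exact_mod_cast k2
  linarith

variable {p : ℝ≥0∞} [Fact (1 ≤ p)] {R : X → X} {φ : X → ℂ} {T : Lp ℂ p μ →L[ℂ] Lp ℂ p μ}
  {f : Lp ℂ p μ}

theorem seqs {Y : Type} [MetricSpace Y] {a : ℕ → Y} (hd : DenseRange a) (g : Y) :
    ∃ m : ℕ → ℕ, Tendsto (fun k => a (m k)) atTop (𝓝 g) ∧ ∀ᶠ k in atTop, g ≠ a 0 → m k ≠ 0 := by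
  obtain ⟨v, hv, hl⟩ := mem_closure_iff_seq_limit.1 (hd g)
  choose m hm using hv
  refine ⟨m, by simpa only [hm] using hl, ?_⟩
  by_cases h : g = a 0
  · exact Eventually.of_forall fun k hk => absurd h hk
  · exact (hl.eventually_ne h).mono fun k hk _ h0 => hk (by rw [← hm k, h0])

omit [IsProbabilityMeasure μ] in
theorem inmeas {v : ℕ → Lp ℂ p μ} {g : Lp ℂ p μ} (hl : Tendsto v atTop (𝓝 g)) {η : ℝ}
    (hη : 0 < η) {ε : ℝ≥0∞} (hε : 0 < ε) : ∀ᶠ k in atTop, μ {x | η ≤ ‖v k x - g x‖} < ε := by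
  have h1 : TendstoInMeasure μ (fun n => (v n : X → ℂ)) atTop (g : X → ℂ) :=
    tendstoInMeasure_of_tendsto_Lp hl
  rw [tendstoInMeasure_iff_norm] at h1
  have h2 := h1 η hη
  exact h2.eventually (gt_mem_nhds hε)

theorem approx (hd : DenseRange fun n : ℕ => (T ^ n) f) (g : Lp ℂ p μ) {η : ℝ} (hη : 0 < η)
    {ε : ℝ≥0∞} (hε : 0 < ε) : ∃ m : ℕ, (g ≠ f → m ≠ 0) ∧ μ {x | η ≤ ‖(T ^ m) f x - g x‖} < ε ∧
      μ {x | η ≤ ‖(T ^ (m + 1)) f x - T g x‖} < ε := by
  obtain ⟨m, hl, h3⟩ := seqs hd g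
  have hl2 : Tendsto (fun k => (T ^ (m k + 1)) f) atTop (𝓝 (T g)) := by
    refine ((T.continuous.tendsto g).comp hl).congr fun k => ?_
    rw [pow_succ', ContinuousLinearMap.mul_apply, Function.comp]
  obtain ⟨k, k1, k2, k3⟩ := ((inmeas hl hη hε).and ((inmeas hl2 hη hε).and h3)).exists
  refine ⟨m k, fun h => k3 ?_, k1, k2⟩
  rwa [pow_zero, ContinuousLinearMap.one_apply]

theorem step (hT : ∀ g, T g =ᵐ[μ] fun x => φ x * g (R x)) (m : ℕ) :
    ∀ᵐ x ∂μ, (T ^ (m + 1)) f x = φ x * (T ^ m) f (R x) := by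
  rw [pow_succ']
  exact hT _

theorem ident (hR : MeasurePreserving R μ μ) (hT : ∀ g, T g =ᵐ[μ] fun x => φ x * g (R x))
    (m : ℕ) : ∀ᵐ x ∂μ, (f (R^[m] x) = 0 → (T ^ m) f x = 0) ∧
      (T ^ (m + 1)) f x * f (R^[m] x) = (T ^ m) f x * T f (R^[m] x) := by
  induction m with
  | zero => exact Eventually.of_forall fun x => ⟨by simp, by simp [mul_comm]⟩
  | succ m ih =>
    filter_upwards [hR.quasiMeasurePreserving.ae ih, step (f := f) hT m,
      step (f := f) hT (m + 1)] with x h1 h2 h3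
    simp only [Function.iterate_succ, Function.comp]
    refine ⟨fun h => by rw [h2, h1.1 h, mul_zero], ?_⟩
    rw [h3, h2, mul_assoc, h1.2, mul_assoc]

theorem cst (c : ℂ) : ∃ g : Lp ℂ p μ, ∀ᵐ x ∂μ, g x = c :=
  ⟨(memLp_const c).toLp _, MemLp.coeFn_toLp _⟩

theorem f_ne (hR : MeasurePreserving R μ μ) (hT : ∀ g, T g =ᵐ[μ] fun x => φ x * g (R x))
    (hd : DenseRange fun n : ℕ => (T ^ n) f) : ∀ᵐ x ∂μ, f x ≠ 0 := by
  rw [ae_iff]
  by_contra h0
  obtain ⟨g, hg⟩ := cst (p := p) (μ := μ) 1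
  obtain ⟨m, -, k, -⟩ := approx hd g one_pos (pos_iff_ne_zero.2 h0)
  refine k.not_ge ?_
  have hm : NullMeasurableSet {x | ¬ f x ≠ 0} μ := by
    simp only [ne_eq, not_not]
    exact (Lp.aestronglyMeasurable f).aemeasurable.nullMeasurable (measurableSet_singleton 0)
  rw [← (hR.iterate m).measure_preimage hm]
  refine measure_mono_ae ?_
  filter_upwards [hg, ident (f := f) hR hT m] with x h1 h2 hx
  have : f (R^[m] x) = 0 := not_not.1 hx
  show (1 : ℝ) ≤ _
  rw [h1, h2.1 this]; simp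

theorem supp (hR : MeasurePreserving R μ μ) (hT : ∀ g, T g =ᵐ[μ] fun x => φ x * g (R x))
    (hd : DenseRange fun n : ℕ => (T ^ n) f) (g : Lp ℂ p μ) :
    ∀ᵐ x ∂μ, g x = 0 → T g x = 0 := by
  have key : ∀ n : ℕ, ∀ᵐ x ∂μ, g x = 0 → ‖T g x‖ < 2 / ((n : ℝ) + 1) := by
    intro n
    rw [ae_iff]
    refine null_of_le fun ε hε => ?_
    have hq : AEStronglyMeasurable (fun x => T f x / f x) μ :=
      ((Lp.aestronglyMeasurable _).aemeasurable.div
        (Lp.aestronglyMeasurable _).aemeasurable).aestronglyMeasurable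
    obtain ⟨M, hM, hM2⟩ := tight hq hε
    set δ : ℝ := 1 / ((n : ℝ) + 1) with hδ
    have d0 : 0 < δ := by positivity
    obtain ⟨m, -, k1, k2⟩ := approx hd g (η := min δ (δ / M)) (by positivity) hε
    rw [← (hR.iterate m).measure_preimage
      (nullMeasurableSet_le aemeasurable_const hq.norm.aemeasurable)] at hM2
    refine le_trans ?_ (add_le_add (add_le_add k1.le k2.le) hM2.le)
    refine le_trans (measure_mono_ae ?_) ((measure_union_le _ _).trans
      (add_le_add (measure_union_le _ _) le_rfl))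
    filter_upwards [ident (f := f) hR hT m,
      (hR.iterate m).quasiMeasurePreserving.ae (f_ne hR hT hd)] with x h1 h2 hx
    by_contra hc
    have hc' : ¬ (min δ (δ / M) ≤ ‖(T ^ m) f x - g x‖) ∧
        ¬ (min δ (δ / M) ≤ ‖(T ^ (m + 1)) f x - T g x‖) ∧
        ¬ (M ≤ ‖T f (R^[m] x) / f (R^[m] x)‖) :=
      ⟨fun h => hc (Or.inl (Or.inl h)), fun h => hc (Or.inl (Or.inr h)), fun h => hc (Or.inr h)⟩
    obtain ⟨c1, c2, c3⟩ := hc'
    rw [not_le] at c1 c2 c3
    refine hx fun h0 => ?_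
    rw [h0, sub_zero] at c1
    have e : (T ^ (m + 1)) f x = (T ^ m) f x * (T f (R^[m] x) / f (R^[m] x)) := by
      field_simp
      exact h1.2
    have b1 : ‖(T ^ (m + 1)) f x‖ ≤ δ := by
      rw [e, norm_mul]
      calc _ ≤ (δ / M) * M := mul_le_mul (c1.le.trans (min_le_right _ _)) c3.le (norm_nonneg _)
            (by positivity)
        _ = δ := by field_simp
    have b2 := norm_sub_norm_le (T g x) ((T ^ (m + 1)) f x)
    rw [norm_sub_rev] at b2
    have b3 := c2.trans_le (min_le_left _ _)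
    have : 2 / ((n : ℝ) + 1) = δ + δ := by rw [hδ]; ring
    linarith
  filter_upwards [ae_all_iff.2 key] with x hx h0
  by_contra hn
  have h1 : 0 < ‖T g x‖ := norm_pos_iff.2 hn
  obtain ⟨n, hn⟩ := exists_nat_gt (2 / ‖T g x‖)
  have h2 := hx n h0
  rw [lt_div_iff₀ (by positivity)] at h2
  rw [div_lt_iff₀ h1] at hn
  nlinarith

theorem phi_ne (hT : ∀ g, T g =ᵐ[μ] fun x => φ x * g (R x))
    (hd : DenseRange fun n : ℕ => (T ^ n) f) : ∀ᵐ x ∂μ, φ x ≠ 0 := by
  rw [ae_iff]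
  by_contra h0
  have : ∃ c : ℂ, 1 ≤ ‖c‖ ∧ ∃ g : Lp ℂ p μ, g ≠ f ∧ ∀ᵐ x ∂μ, g x = c := by
    obtain ⟨g1, h1⟩ := cst (p := p) (μ := μ) 1
    obtain ⟨g2, h2⟩ := cst (p := p) (μ := μ) 2
    by_cases h : g1 = f
    · refine ⟨2, by simp, g2, fun h' => ?_, h2⟩
      rw [h, ← h'] at h1
      obtain ⟨x, a, b⟩ := (h1.and h2).exists
      rw [a] at b
      norm_num at b
    · exact ⟨1, by simp, g1, h, h1⟩
  obtain ⟨c, hc, g, hg, hg2⟩ := this
  obtain ⟨m, hm, k, -⟩ := approx hd g one_pos (pos_iff_ne_zero.2 h0)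
  obtain ⟨m, rfl⟩ := Nat.exists_eq_succ_of_ne_zero (hm hg)
  refine k.not_ge (measure_mono_ae ?_)
  filter_upwards [hg2, step (f := f) hT m] with x h1 h2 hx
  have : φ x = 0 := not_not.1 hx
  show (1 : ℝ) ≤ _
  rw [h1, Nat.succ_eq_add_one, h2, this]; simpa using hc

theorem moving (hR : MeasurePreserving R μ μ) (hT : ∀ g, T g =ᵐ[μ] fun x => φ x * g (R x))
    (hd : DenseRange fun n : ℕ => (T ^ n) f) {I : Set X} (hI : MeasurableSet I) :
    ∀ᵐ x ∂μ, R x ∈ I → x ∈ I := by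
  let g : Lp ℂ p μ := indicatorConstLp p hI (measure_ne_top μ I) (1 : ℂ)
  have hg : g =ᵐ[μ] I.indicator fun _ => (1 : ℂ) := indicatorConstLp_coeFn
  filter_upwards [hg, hR.quasiMeasurePreserving.ae hg, supp hR hT hd g, hT g, phi_ne hT hd]
    with x h1 h2 h3 h4 h5 hx
  by_contra hn
  rw [indicator_of_notMem hn] at h1
  rw [indicator_of_mem hx] at h2
  have := h3 h1
  rw [h4, h2] at this
  exact h5 (by simpa using this)

theorem still (hR : MeasurePreserving R μ μ) (hT : ∀ g, T g =ᵐ[μ] fun x => φ x * g (R x))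
    (hd : DenseRange fun n : ℕ => (T ^ n) f) (hid : ∀ᵐ x ∂μ, R x = x) : False := by
  have hn : ∀ m : ℕ, ∀ᵐ x ∂μ, (T ^ m) f x = φ x ^ m * f x := by
    intro m
    induction m with
    | zero => simp
    | succ m ih =>
      filter_upwards [ih, hid, step (f := f) hT m] with x h1 h2 h3
      rw [h3, h2, h1]; ring
  have hf := f_ne hR hT hd
  by_cases hA : μ {x | ¬ ‖φ x‖ < 1} = 0
  · obtain ⟨M, hM, hM2⟩ := tight (Lp.aestronglyMeasurable f) (ε := 1 / 2) (by norm_num)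
    obtain ⟨g, hg⟩ := cst (p := p) (μ := μ) ((M + 1 : ℝ) : ℂ)
    obtain ⟨m, -, k, -⟩ := approx hd g one_pos (ε := 1 / 2) (by norm_num)
    have h1 := ENNReal.add_lt_add hM2 k
    rw [ENNReal.add_halves, ← measure_univ (μ := μ)] at h1
    refine h1.not_ge (le_trans (measure_mono_ae ?_) (measure_union_le _ _))
    filter_upwards [hg, hn m, ae_iff.2 hA] with x h1 h2 h3 _
    by_contra hc
    have c1 : ¬ M ≤ ‖f x‖ := fun h => hc (Or.inl h)
    have c2 : ¬ 1 ≤ ‖(T ^ m) f x - g x‖ := fun h => hc (Or.inr h)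
    have b2 := norm_sub_norm_le (g x) ((T ^ m) f x)
    rw [norm_sub_rev] at b2
    have b3 : ‖g x‖ = M + 1 := by rw [h1, Complex.norm_real, Real.norm_of_nonneg (by linarith)]
    have b4 : ‖(T ^ m) f x‖ ≤ ‖f x‖ := by
      rw [h2, norm_mul, norm_pow]
      exact mul_le_of_le_one_left (norm_nonneg _) (pow_le_one₀ (norm_nonneg _) h3.le)
    linarith
  · refine hA (null_of_le fun ε hε => ?_)
    obtain ⟨M, hM, hM2⟩ := tight (h := fun x => (f x)⁻¹)
      (Lp.aestronglyMeasurable f).aemeasurable.inv.aestronglyMeasurable hε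
    obtain ⟨m, -, k, -⟩ := approx hd 0 (η := M⁻¹) (by positivity) hε
    refine le_trans ?_ (le_add_right (add_le_add hM2.le k.le))
    refine le_trans (measure_mono_ae ?_) (measure_union_le _ _)
    filter_upwards [hf, hn m, Lp.coeFn_zero ℂ p μ] with x h1 h2 h3 hx
    by_contra hc
    have c1 : ¬ M ≤ ‖(f x)⁻¹‖ := fun h => hc (Or.inl h)
    refine hc (Or.inr ?_)
    show M⁻¹ ≤ _
    rw [h3, h2, Pi.zero_apply, sub_zero, norm_mul, norm_pow]
    rw [norm_inv, not_le, inv_lt_comm₀ (norm_pos_iff.2 h1) hM] at c1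
    exact c1.le.trans (le_mul_of_one_le_left (norm_nonneg _) (one_le_pow₀ (not_lt.1 hx)))

end

theorem mu_eq : mu = volume.restrict (Ico (0 : ℝ) 1) :=
  (Measure.restrict_congr_set Ico_ae_eq_Icc).symm

instance : IsProbabilityMeasure mu := ⟨by simp [mu]⟩

theorem pres {α : ℝ} (hα : α ∈ Set.Icc (0 : ℝ) 1) :
    MeasurePreserving (fun x => Int.fract (x + α)) mu mu := by
  have hm : Measurable fun x : ℝ => Int.fract (x + α) := by fun_prop
  have h1 := (measurePreserving_add_right volume α).restrict_preimage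
    (measurableSet_Ico (a := α) (b := 1))
  have h2 := (measurePreserving_add_right volume (α - 1)).restrict_preimage
    (measurableSet_Ico (a := 0) (b := α))
  rw [preimage_add_const_Ico] at h1 h2
  rw [sub_self] at h1
  rw [show 0 - (α - 1) = 1 - α by ring, show α - (α - 1) = 1 by ring] at h2
  have k1 := h1.congr hm ((ae_restrict_mem measurableSet_Ico).mono fun x hx =>
    (Int.fract_eq_self.2 ⟨by linarith [hx.1, hα.1], by linarith [hx.2]⟩).symm)
  have k2 := h2.congr hm ((ae_restrict_mem measurableSet_Ico).mono fun x hx => by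
    show x + (α - 1) = Int.fract (x + α)
    rw [eq_comm, Int.fract_eq_iff]
    exact ⟨by linarith [hx.1], by linarith [hx.2, hα.2], 1, by push_cast; ring⟩)
  have k := k1.add_measure k2
  rw [add_comm (volume.restrict (Ico α 1)), ← Measure.restrict_union Ico_disjoint_Ico_same
    measurableSet_Ico, ← Measure.restrict_union Ico_disjoint_Ico_same measurableSet_Ico,
    Ico_union_Ico_eq_Ico (by linarith [hα.2]) (by linarith [hα.1]),
    Ico_union_Ico_eq_Ico hα.1 hα.2] at k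
  rwa [mu_eq]

theorem main (p : ℝ≥0∞) [Fact (1 ≤ p)] (_hp1 : 1 < p) (_hp : p ≠ ⊤) (φ : ℝ → ℂ)
    (_hφ : MemLp φ ⊤ mu) (α : ℝ) (hα : α ∈ Set.Icc (0 : ℝ) 1)
    (T : Lp ℂ p mu →L[ℂ] Lp ℂ p mu)
    (hT : ∀ g : Lp ℂ p mu, T g =ᵐ[mu] fun x => φ x * g (Int.fract (x + α))) (f : Lp ℂ p mu) :
    ¬ DenseRange fun n : ℕ => (T ^ n) f := by
  intro hd
  have hI : ∀ᵐ x ∂mu, x ∈ Ico (0 : ℝ) 1 := by
    rw [mu_eq]; exact ae_restrict_mem measurableSet_Ico
  by_cases h0 : α = 0 ∨ α = 1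
  · refine still (pres hα) hT hd (hI.mono fun x hx => ?_)
    rcases h0 with h | h <;> simp [h, Int.fract_eq_self, hx.1, hx.2]
  rw [not_or] at h0
  have a0 : 0 < α := lt_of_le_of_ne hα.1 (Ne.symm h0.1)
  have a1 : α < 1 := lt_of_le_of_ne hα.2 h0.2
  have hb : 0 < min α (1 - α) := lt_min a0 (by linarith)
  have h := moving (pres hα) hT hd (measurableSet_Ico (a := 0) (b := min α (1 - α)))
  have hz : mu (Ico (1 - α) (1 - α + min α (1 - α))) = 0 := by
    refine measure_mono_null ?_ (ae_iff.1 h)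
    intro x hx hx2
    have m1 := min_le_left α (1 - α)
    have m2 := min_le_right α (1 - α)
    have e : Int.fract (x + α) = x + α - 1 := by
      rw [Int.fract_eq_iff]
      exact ⟨by linarith [hx.1], by linarith [hx.2], 1, by push_cast; ring⟩
    have := (hx2 ⟨by rw [e]; linarith [hx.1], by rw [e]; linarith [hx.2]⟩).2
    linarith [hx.1]
  have hs : Ico (1 - α) (1 - α + min α (1 - α)) ⊆ Icc 0 1 := fun x hx =>
    ⟨by linarith [hx.1], by linarith [hx.2, min_le_left α (1 - α)]⟩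
  rw [Measure.restrict_apply measurableSet_Ico, inter_eq_left.2 hs] at hz
  simp at hz
  rcases hz with h | h <;> linarith

theorem result (p : ℝ≥0∞) [Fact (1 ≤ p)] (hp1 : 1 < p) (hp : p ≠ ⊤) (φ : ℝ → ℂ)
    (hφ : MemLp φ ⊤ mu) (α : ℝ) (hα : α ∈ Set.Icc (0 : ℝ) 1) (T : Op (L p))
    (hT : IsWT p φ α (act T)) : ¬ Hypercyclic T := fun ⟨f, hf⟩ =>
  main p hp1 hp φ hφ α hα T hT f (by
    have e : ∀ n : ℕ, ((show L p →L[ℂ] L p from T) ^ n) f = (act T)^[n] f := fun n => by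
      rw [ContinuousLinearMap.coe_pow']; rfl
    simpa only [← e] using hf)

end Pool.Agent.Results.MP_e40715_an.Proof
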